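import Pool.Agent.Helper84.OB.Stmts

/-! Row MN of sheet OB: the minor which is the union of two circuit-hyperplanes. -/

set_option autoImplicit false

universe u

open Set Pool.Agent.Helper84.BT Pool.Agent.Helper84.OB
open scoped Matroid

namespace Pool.Agent.Helper70.OB

/-- a spanning subset may replace the set -/
theorem rk_repl {α : Type u} [Finite α] (M : Matroid α) (A X B : Set α) (h : A ⊆ X)
    (hr : rk M A = rk M X) : rk M (A ∪ B) = rk M (X ∪ B) := by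
  apply le_antisymm (rk_mono M (union_subset_union_left _ h))
  have h1 := rk_submod M X (A ∪ B)
  have h2 : X ∪ (A ∪ B) = X ∪ B := by
    rw [← union_assoc, union_eq_self_of_subset_right h]
  have h3 : rk M A ≤ rk M (X ∩ (A ∪ B)) := rk_mono M (subset_inter h subset_union_left)
  rw [h2] at h1
  omega

theorem rk_Z {α : Type u} [Finite α] (M : Matroid α) (X Y C H D H' : Set α)
    (hX : Side M X Y C H) (hY : Side M Y X D H') :
    rk M (X ∩ Y ∪ H ∪ H') = rk M (X ∩ Y) + H.ncard + H'.ncard := by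
  obtain ⟨a1, a2, a3, a4, a5, a6, a7, a8, a9⟩ := hX
  obtain ⟨b1, b2, b3, b4, b5, b6, b7, b8, b9⟩ := hY
  have p1 : ∀ x ∈ H, x ∉ Y := fun x hx => disjoint_left.1 a3 (a1 hx)
  have p2 : ∀ x ∈ H', x ∉ X := fun x hx => disjoint_left.1 b3 (b1 hx)
  have p3 : ∀ x ∈ H, x ∈ X := fun x hx => a2 (a1 hx)
  have p4 : ∀ x ∈ H', x ∈ Y := fun x hx => b2 (b1 hx)
  apply le_antisymm
  · have h1 := rk_union_le_add_ncard M (X ∩ Y) H
    have h2 := rk_union_le_add_ncard M (X ∩ Y ∪ H) H'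
    omega
  · have h1 := rk_submod M (X ∩ Y ∪ H ∪ H') Y
    have h2 := rk_submod M (X ∩ Y ∪ H') X
    have e1 : (X ∩ Y ∪ H ∪ H') ∩ Y = X ∩ Y ∪ H' := by
      ext x
      have q1 := p1 x
      have q4 := p4 x
      simp only [mem_inter_iff, mem_union]
      tauto
    have e2 : (X ∩ Y ∪ H ∪ H') ∪ Y = H ∪ Y := by
      ext x
      have q4 := p4 x
      simp only [mem_inter_iff, mem_union]
      tauto
    have e3 : (X ∩ Y ∪ H') ∩ X = X ∩ Y := by
      ext x
      have q2 := p2 x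
      simp only [mem_inter_iff, mem_union]
      tauto
    have e4 : (X ∩ Y ∪ H') ∪ X = H' ∪ X := by
      ext x
      simp only [mem_inter_iff, mem_union]
      tauto
    rw [e1, e2, a7] at h1
    rw [e3, e4, b7] at h2
    omega

theorem half (hRM : ST_RM.{u}) {α : Type u} [Finite α] (M : Matroid α) (X Y C H D H' : Set α)
    (hXE : X ⊆ M.E) (hYE : Y ⊆ M.E) (hpos : rk M (X ∪ Y) + rk M (X ∩ Y) < rk M X + rk M Y)
    (hX : Side M X Y C H) (hY : Side M Y X D H') :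
    3 ≤ (C \ H).encard ∧
      IsCircuitHyperplane ((M ／ (X ∩ Y ∪ H ∪ H')) ↾ ((C \ H) ∪ (D \ H'))) (C \ H) := by
  have hZ := rk_Z M X Y C H D H' hX hY
  obtain ⟨a1, a2, a3, a4, a5, a6, a7, a8, a9⟩ := hX
  obtain ⟨b1, b2, b3, b4, b5, b6, b7, b8, b9⟩ := hY
  rw [inter_comm Y X] at b4 b5
  rw [union_comm Y X] at b8
  have p1 : ∀ x ∈ C, x ∉ Y := fun x hx => disjoint_left.1 a3 hx
  have p2 : ∀ x ∈ D, x ∉ X := fun x hx => disjoint_left.1 b3 hx
  have p3 : ∀ x ∈ H, x ∈ C := fun x hx => a1 hx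
  have p4 : ∀ x ∈ H', x ∈ D := fun x hx => b1 hx
  have p5 : ∀ x ∈ C, x ∈ X := fun x hx => a2 hx
  have p6 : ∀ x ∈ D, x ∈ Y := fun x hx => b2 hx
  obtain ⟨Z, hZd⟩ : ∃ Z : Set α, Z = X ∩ Y ∪ H ∪ H' := ⟨_, rfl⟩
  obtain ⟨G, hGd⟩ : ∃ G : Set α, G = (C \ H) ∪ (D \ H') := ⟨_, rfl⟩
  rw [← hZd] at hZ
  rw [← hZd, ← hGd]
  have mZ : ∀ x, x ∈ Z ↔ ((x ∈ X ∧ x ∈ Y) ∨ x ∈ H) ∨ x ∈ H' := by
    intro x
    rw [hZd]
    rfl
  have mG : ∀ x, x ∈ G ↔ (x ∈ C ∧ x ∉ H) ∨ (x ∈ D ∧ x ∉ H') := by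
    intro x
    rw [hGd]
    rfl
  have hZE : Z ⊆ M.E := by
    intro x hx
    rcases (mZ x).1 hx with (h | h) | h
    · exact hXE h.1
    · exact hXE (p5 x (p3 x h))
    · exact hYE (p6 x (p4 x h))
  have hGE : G ⊆ M.E := by
    intro x hx
    rcases (mG x).1 hx with h | h
    · exact hXE (p5 x h.1)
    · exact hYE (p6 x h.1)
  have hdis : Disjoint Z G := by
    rw [disjoint_left]
    intro x hx hx'
    have q1 := p1 x
    have q2 := p2 x
    have q3 := p3 x
    have q4 := p4 x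
    have q5 := p5 x
    have q6 := p6 x
    rw [mZ] at hx
    rw [mG] at hx'
    tauto
  have hR : ∀ U ⊆ G, rk ((M ／ Z) ↾ G) U + rk M Z = rk M (U ∪ Z) :=
    fun U hU => hRM α M Z G U hZE hGE hdis hU
  have hcC : (C \ H).ncard + H.ncard = C.ncard := Set.ncard_sdiff_add_ncard_of_subset a1
  have hcD : (D \ H').ncard + H'.ncard = D.ncard := Set.ncard_sdiff_add_ncard_of_subset b1
  obtain ⟨N, hN⟩ : ∃ N : Matroid α, N = (M ／ Z) ↾ G := ⟨_, rfl⟩
  rw [← hN] at hR ⊢
  have hNE : N.E = G := by rw [hN]; rfl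
  have hCG : C \ H ⊆ G := by rw [hGd]; exact subset_union_left
  -- ranks
  have r1 : rk M ((C \ H) ∪ Z) = rk M X + H'.ncard := by
    have e : (C \ H) ∪ Z = (C ∪ (X ∩ Y)) ∪ H' := by
      ext x
      have q3 := p3 x
      simp only [mem_union, mem_inter_iff, mem_sdiff, mZ]
      tauto
    rw [e, rk_repl M (C ∪ (X ∩ Y)) X H' (union_subset a2 inter_subset_left) a4, union_comm, b7]
  have r2 : ∀ c ∈ C \ H, rk M (((C \ H) \ {c}) ∪ Z) = rk M X + H'.ncard := by
    intro c hc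
    have e : ((C \ H) \ {c}) ∪ Z = ((C \ {c}) ∪ (X ∩ Y)) ∪ H' := by
      ext x
      have q3 := p3 x
      have q7 : x ∈ H → x ≠ c := fun h1 h2 => hc.2 (h2 ▸ h1)
      simp only [mem_union, mem_inter_iff, mem_sdiff, mem_singleton_iff, mZ]
      tauto
    rw [e, rk_repl M ((C \ {c}) ∪ (X ∩ Y)) X H'
      (union_subset (sdiff_subset.trans a2) inter_subset_left) (a6 c hc.1), union_comm, b7]
  have r3 : rk M (G ∪ Z) = rk M (X ∪ Y) := by
    have e : G ∪ Z = (C ∪ (X ∩ Y)) ∪ (D ∪ (X ∩ Y)) := by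
      ext x
      have q3 := p3 x
      have q4 := p4 x
      simp only [mem_union, mem_inter_iff, mG, mZ]
      tauto
    rw [e, rk_repl M (C ∪ (X ∩ Y)) X _ (union_subset a2 inter_subset_left) a4, union_comm,
      rk_repl M (D ∪ (X ∩ Y)) Y _ (union_subset b2 inter_subset_right) b4, union_comm]
  have r4 : ∀ d ∈ D \ H', rk M (insert d (C \ H) ∪ Z) = rk M (X ∪ Y) := by
    intro d hd
    have e : insert d (C \ H) ∪ Z = (C ∪ (X ∩ Y)) ∪ (insert d H') := by
      ext x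
      have q3 := p3 x
      simp only [mem_union, mem_inter_iff, mem_sdiff, mem_insert_iff, mZ]
      tauto
    have h9 := b9 d hd
    rw [union_comm Y X] at h9
    rw [e, rk_repl M (C ∪ (X ∩ Y)) X _ (union_subset a2 inter_subset_left) a4, ← h9,
      union_insert, union_comm X H']
  have s1 := hR (C \ H) hCG
  have s3 := hR G Subset.rfl
  rw [r1] at s1
  rw [r3] at s3
  have q1 : rk N (C \ H) + 1 = (C \ H).ncard := by omega
  have q3 : rk N G = (C \ H).ncard := by omega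
  have q0 : 3 ≤ (C \ H).ncard := by omega
  refine ⟨?_, ?_, ?_, ?_⟩
  · rw [← Set.Finite.cast_ncard_eq (Set.toFinite (C \ H))]
    exact_mod_cast q0
  · rw [Matroid.isCircuit_iff_dep_forall_sdiff_singleton_indep]
    refine ⟨⟨fun hI => ?_, by rw [hNE]; exact hCG⟩, fun c hc => ?_⟩
    · have := hI.ncard_eq_rk'
      omega
    · apply indep_of_ncard_le_rk
      have s2 := hR ((C \ H) \ {c}) (sdiff_subset.trans hCG)
      rw [r2 c hc] at s2
      have s4 := Set.ncard_sdiff_singleton_add_one hc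
      omega
  · rw [Matroid.isFlat_iff_closure_eq]
    apply Subset.antisymm
    · intro x hx
      by_contra hxn
      have hxE : x ∈ N.E := N.mem_ground_of_mem_closure hx
      have hxG : x ∈ G := hNE ▸ hxE
      have hxD : x ∈ D \ H' := by
        rcases (mG x).1 hxG with h | h
        · exact absurd h hxn
        · exact h
      rw [mem_closure_iff_rk N hxE] at hx
      have s5 := hR (insert x (C \ H)) (insert_subset hxG hCG)
      rw [r4 x hxD] at s5
      omega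
    · exact N.subset_closure (C \ H) (by rw [hNE]; exact hCG)
  · rw [← N.eRk_ground, hNE, ← coe_rk, ← coe_rk, q3]
    exact_mod_cast q1

theorem st_MN (hRM : ST_RM.{u}) : ST_MN.{u} := by
  intro α _ M X Y C H D H' hX hY hpos sX sY
  obtain ⟨h3, hC⟩ := half hRM M X Y C H D H' hX.subset_ground hY.subset_ground hpos sX sY
  obtain ⟨-, hD⟩ := half hRM M Y X D H' C H hY.subset_ground hX.subset_ground
    (by rw [union_comm Y X, inter_comm Y X]; omega) sY sX
  have e1 : Y ∩ X ∪ H' ∪ H = X ∩ Y ∪ H ∪ H' := by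
    rw [inter_comm Y X, union_assoc, union_comm H' H, ← union_assoc]
  have e2 : (D \ H') ∪ (C \ H) = (C \ H) ∪ (D \ H') := union_comm _ _
  rw [e1, e2] at hD
  refine ⟨(M ／ (X ∩ Y ∪ H ∪ H')) ↾ ((C \ H) ∪ (D \ H')), C \ H, D \ H', ?_, ?_, rfl, h3, hC, hD⟩
  · refine ⟨X ∩ Y ∪ H ∪ H', (M ／ (X ∩ Y ∪ H ∪ H')).E \ ((C \ H) ∪ (D \ H')), ?_⟩
    rw [Matroid.delete_eq_restrict]
    congr 1
    rw [sdiff_sdiff_cancel_left]
    obtain ⟨a1, a2, a3, -⟩ := sX
    obtain ⟨b1, b2, b3, -⟩ := sY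
    intro x hx
    refine ⟨?_, fun hxZ => ?_⟩
    · rcases hx with h | h
      · exact hX.subset_ground (a2 h.1)
      · exact hY.subset_ground (b2 h.1)
    · have p1 : x ∈ C → x ∉ Y := fun hx => disjoint_left.1 a3 hx
      have p2 : x ∈ D → x ∉ X := fun hx => disjoint_left.1 b3 hx
      have p3 : x ∈ H → x ∈ C := fun hx => a1 hx
      have p4 : x ∈ H' → x ∈ D := fun hx => b1 hx
      have p5 : x ∈ C → x ∈ X := fun hx => a2 hx
      have p6 : x ∈ D → x ∈ Y := fun hx => b2 hx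
      simp only [mem_union, mem_inter_iff, mem_sdiff] at hx hxZ
      tauto
  · rw [disjoint_left]
    intro x h1 h2
    exact disjoint_left.1 sY.2.2.1 h2.1 (sX.2.1 h1.1)

end Pool.Agent.Helper70.OB
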